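import Pool.Agent.Results.MP_a2beea_nt.AveragedAndAbelian
import Pool.Agent.K4H54.CZ2.Fd4

/-!
# Colmez's functions of CM types whose Galois translates form a 2-design

`K` is a CM field, Galois over `ℚ`, and `E` a CM field which contains an imaginary quadratic field
`k = ℚ(δ)`.  A CM type `Φ` of `E` is given by the set `I` of the embeddings `σ` of the maximal real
subfield `F` such that the element of `Φ` above `σ` has one of the two restrictions to `k`.  We show
that `A_Φ` is a combination of `1` and the averaged functions if the translates of `I` under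
`Gal(K/ℚ)` form a 2-design.  This holds for `|I| ≤ 1` (signature `(n - 1, 1)`), for all `I` if the
Galois group is doubly transitive on the embeddings of `F`, and, if `F` is Galois over `ℚ`, for all
difference sets `I` in `Gal(F/ℚ)`.
-/

set_option autoImplicit false

open NumberField

namespace Pool.Agent.Results.MP_a2beea_nt.DesignTypes

open Pool.Agent.Results.MP_a2beea_nt.AveragedAndAbelian

/-- The Galois translates of `Φ` form a 2-design: for all different embeddings `ψ`, `ψ'` of `E` with
the same value at `δ` there are `l` elements `g` of `Gal(K/ℚ)` such that `g ψ`, `g ψ'` are both in `Φ`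
or both not in `Φ`, and `l` does not depend on `ψ`, `ψ'`. -/
def IsDesign {E K : Type} [Field E] [NumberField E] [Field K] [NumberField K] (δ : E)
    (Φ : Finset (E →ₐ[ℚ] K)) : Prop :=
  ∃ l : ℕ, ∀ ψ ψ' : E →ₐ[ℚ] K, ψ ≠ ψ' → ψ δ = ψ' δ →
    Nat.card {g : K ≃ₐ[ℚ] K // act g ψ ∈ Φ ↔ act g ψ' ∈ Φ} = l

/-- **Main result.**  Let `K` be a CM field, Galois over `ℚ`, and `E` a CM field which contains
`δ = √q` for a rational `q < 0`.  If `Φ` is a CM type of `E` whose Galois translates form a 2-design,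
then `A_Φ` is in `avgSpan K`. -/
theorem result (K : Type) [Field K] [NumberField K] [IsGalois ℚ K] [IsCMField K]
    (E : Type) [Field E] [NumberField E] [IsCMField E] (δ : E) (q : ℚ) (hq : q < 0)
    (hδ : δ ^ 2 = algebraMap ℚ E q) (Φ : Finset (E →ₐ[ℚ] K)) (hΦ : IsCMType Φ)
    (hD : IsDesign δ Φ) : heightFn Φ ∈ avgSpan K := by
  classical
  by_cases hne : Nonempty (E →ₐ[ℚ] K)
  · obtain ⟨ψ₀⟩ := hne
    have hhalf := isHalf hΦ
    have hc2 : Pool.Agent.Q11.CZ.conj K * Pool.Agent.Q11.CZ.conj K = 1 :=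
      Pool.Agent.Q11.CZ.conj_mul_self
    have hfree := Pool.Agent.K4H54.CZ2.half_free hhalf
    rw [avgSpan_eq, Pool.Agent.Q11.CZ.mem_avgSpan_iff, heightFn_eq]
    refine ⟨Pool.Agent.Q11.CZ.T_isClass Φ, ⟨Φ.card,
      fun g => Pool.Agent.Q11.CZ.T_add Pool.Agent.Q11.CZ.conj_comm hhalf g⟩,
      Pool.Agent.K4H54.CZ2.zinv_T ?_⟩
    obtain ⟨S, s1, s2, s3, s4⟩ := Pool.Agent.K4H54.CZ2.split_sign' hq hδ ψ₀
    obtain ⟨l, hl⟩ := hD
    refine Pool.Agent.K4H54.CZ2.zinv_design Pool.Agent.Q11.CZ.conj_comm hc2 hhalf S s1 s2 s3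
      (l := (l : ℤ)) ?_
    intro x y hxy hS
    have h1 := hl x y hxy (s4 x y hS)
    rw [← h1, Nat.card_eq_fintype_card, Fintype.card_subtype]
    rfl
  · have h0 : heightFn Φ = 0 := by
      funext g
      unfold heightFn
      exact Finset.sum_eq_zero fun ψ _ => absurd ⟨ψ⟩ hne
    rw [h0]
    exact Submodule.zero_mem _

end Pool.Agent.Results.MP_a2beea_nt.DesignTypes
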