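import Pool.Agent.Results.MP_a2beea_nt.AveragedAndAbelian
import Pool.Agent.K4H54.CZ2.Fd2

/-!
# Colmez's functions of CM fields with doubly transitive real subfield

`K` is a CM field, Galois over `ℚ`, and `E` is a CM field with maximal real subfield `F`, of degree `n`
over `ℚ`.  The functions `a⁰_{E,ψ,Φ}`, `A_Φ` and the space `avgSpan K` are those of the file
`AveragedAndAbelian`: Colmez's formula holds for every element of `avgSpan K` by the averaged Colmez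
formula.  We show that `avgSpan K` contains the functions of *all* CM types of `E` when the Galois group
acts doubly transitively on the embeddings of `F` (for instance if it is the symmetric, the alternating,
a linear or a Mathieu group), if `n` is not congruent to `2` modulo `4` or `n - 1` is a square.
-/

set_option autoImplicit false

open NumberField

namespace Pool.Agent.Results.MP_a2beea_nt.DoublyTransitive

open Pool.Agent.Results.MP_a2beea_nt.AveragedAndAbelian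

/-- `Gal(K/ℚ)` acts doubly transitively on the embeddings into `K` of the maximal real subfield
`F` of `E`. -/
def RealSubfieldDoublyTransitive (E K : Type) [Field E] [NumberField E] [IsCMField E]
    [Field K] [NumberField K] : Prop :=
  ∀ σ τ σ' τ' : maximalRealSubfield E →ₐ[ℚ] K, σ ≠ τ → σ' ≠ τ' →
    ∃ g : K ≃ₐ[ℚ] K, (g : K →ₐ[ℚ] K).comp σ = σ' ∧ (g : K →ₐ[ℚ] K).comp τ = τ'

open scoped Classical in
lemma mem_a0 {K : Type} [Field K] [NumberField K] [IsGalois ℚ K] [IsCMField K]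
    {E : Type} [Field E] [NumberField E] {Φ : Finset (E →ₐ[ℚ] K)} (hΦ : IsCMType Φ)
    (ψ : E →ₐ[ℚ] K) (h : Pool.Agent.Q11.CZ.ZInv fun g : K ≃ₐ[ℚ] K =>
      (Pool.Agent.K4H54.CZ2.D (Pool.Agent.K4H54.CZ2.kx (K ≃ₐ[ℚ] K) ψ Φ) g : ℚ)) :
    a0 ψ Φ ∈ avgSpan K := by
  rw [avgSpan_eq, Pool.Agent.Q11.CZ.mem_avgSpan_iff, a0_eq]
  exact ⟨Pool.Agent.Q11.CZ.a0_isClass ψ Φ, ⟨1,
    fun g => Pool.Agent.Q11.CZ.a0_add Pool.Agent.Q11.CZ.conj_comm ψ (isHalf hΦ) g⟩,
    Pool.Agent.K4H54.CZ2.zinv_a0 h⟩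

lemma natSquare {n : ℕ} (hn : 0 < n) (h : IsSquare (n - 1)) : IsSquare ((n : ℤ) - 1) := by
  obtain ⟨r, hr⟩ := h
  refine ⟨(r : ℤ), ?_⟩
  have : (n : ℤ) = r * r + 1 := by
    have h1 : n = r * r + 1 := by omega
    exact_mod_cast h1
  linarith

/-- **Main result.**  Let `K` be a CM field, Galois over `ℚ`, and `E` a CM field with maximal real
subfield `F` of degree `n`.  Assume that `Gal(K/ℚ)` acts doubly transitively on the embeddings of `F`.
(1) If `n ≡ 2 (mod 4)` implies that `n - 1` is a square, then `A_Φ` and the functions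
`g ↦ a⁰_{E,ψ,Φ}(g) + a⁰_{E,ψ,Φ}(g⁻¹)` are in `avgSpan K` for all CM types `Φ` of `E`, `ψ ∈ H_E`.
(2) If `n` is odd, or if `n ≡ 2 (mod 4)`, `n > 2` and `n - 1` is a square, then so are all functions
`a⁰_{E,ψ,Φ}`. -/
theorem result (K : Type) [Field K] [NumberField K] [IsGalois ℚ K] [IsCMField K]
    (E : Type) [Field E] [NumberField E] [IsCMField E] (n : ℕ)
    (hn : n = Module.finrank ℚ (maximalRealSubfield E))
    (hD : RealSubfieldDoublyTransitive E K) :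
    ((n % 4 = 2 → IsSquare (n - 1)) →
      ∀ Φ : Finset (E →ₐ[ℚ] K), IsCMType Φ → heightFn Φ ∈ avgSpan K ∧
        ∀ ψ : E →ₐ[ℚ] K, (fun g => a0 ψ Φ g + a0 ψ Φ g⁻¹) ∈ avgSpan K) ∧
    ((n % 2 = 1 ∨ (n % 4 = 2 ∧ 2 < n ∧ IsSquare (n - 1))) →
      ∀ Φ : Finset (E →ₐ[ℚ] K), IsCMType Φ → ∀ ψ : E →ₐ[ℚ] K, a0 ψ Φ ∈ avgSpan K) := by
  classical
  have hn0 : 0 < n := by rw [hn]; exact Module.finrank_pos
  have hcard : ∀ {Φ : Finset (E →ₐ[ℚ] K)}, IsCMType Φ → ∀ ψ : E →ₐ[ℚ] K, Φ.card = n := by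
    intro Φ hΦ ψ
    rw [hn]
    exact Pool.Agent.K4H54.CZ2.card_half_field (isHalf hΦ) ψ
  refine ⟨?_, ?_⟩
  · intro hsq Φ hΦ
    have hDT := Pool.Agent.K4H54.CZ2.DT_of_field hD
    have hsq' : ∀ ψ : E →ₐ[ℚ] K, (Φ.card % 4 = 2 → IsSquare ((Φ.card : ℤ) - 1)) := by
      intro ψ
      rw [hcard hΦ ψ]
      exact fun h => natSquare hn0 (hsq h)
    constructor
    · by_cases hne : Nonempty (E →ₐ[ℚ] K)
      · obtain ⟨ψ⟩ := hne
        rw [avgSpan_eq, Pool.Agent.Q11.CZ.mem_avgSpan_iff, heightFn_eq]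
        refine ⟨Pool.Agent.Q11.CZ.T_isClass Φ, ⟨Φ.card,
          fun g => Pool.Agent.Q11.CZ.T_add Pool.Agent.Q11.CZ.conj_comm (isHalf hΦ) g⟩,
          Pool.Agent.K4H54.CZ2.zinv_T ?_⟩
        exact Pool.Agent.K4H54.CZ2.zinv_sym Pool.Agent.Q11.CZ.conj_comm
          Pool.Agent.Q11.CZ.conj_mul_self (isHalf hΦ) hDT
          (Pool.Agent.K4H54.CZ2.oi_kT Pool.Agent.Q11.CZ.conj_comm (isHalf hΦ))
          (Pool.Agent.K4H54.CZ2.kT_symm Pool.Agent.Q11.CZ.conj_comm (isHalf hΦ)) (hsq' ψ)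
      · have h0 : heightFn Φ = 0 := by
          funext g
          unfold heightFn
          exact Finset.sum_eq_zero fun ψ _ => absurd ⟨ψ⟩ hne
        rw [h0]
        exact Submodule.zero_mem _
    · intro ψ
      rw [avgSpan_eq, Pool.Agent.Q11.CZ.mem_avgSpan_iff]
      have hz := Pool.Agent.K4H54.CZ2.zinv_symm_part Pool.Agent.Q11.CZ.conj_comm
          Pool.Agent.Q11.CZ.conj_mul_self (isHalf hΦ) hDT ψ (hsq' ψ)
      rw [a0_eq]
      refine ⟨?_, ⟨2, ?_⟩, hz⟩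
      · intro g h
        have e1 : (h⁻¹ * g * h)⁻¹ = h⁻¹ * g⁻¹ * h := by group
        simp only [e1, Pool.Agent.Q11.CZ.a0_isClass ψ Φ g h, Pool.Agent.Q11.CZ.a0_isClass ψ Φ g⁻¹ h]
      · intro g
        have e1 : (Pool.Agent.Q11.CZ.conj K * g)⁻¹ = Pool.Agent.Q11.CZ.conj K * g⁻¹ := by
          rw [mul_inv_rev, inv_eq_of_mul_eq_one_left Pool.Agent.Q11.CZ.conj_mul_self,
            Pool.Agent.Q11.CZ.conj_comm]
        have e2 := Pool.Agent.Q11.CZ.a0_add Pool.Agent.Q11.CZ.conj_comm ψ (isHalf hΦ) g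
        have e3 := Pool.Agent.Q11.CZ.a0_add Pool.Agent.Q11.CZ.conj_comm ψ (isHalf hΦ) g⁻¹
        simp only [e1]
        linarith
  · intro hcase Φ hΦ ψ
    have hDT := Pool.Agent.K4H54.CZ2.DT_of_field hD
    have hΦn := hcard hΦ ψ
    refine mem_a0 hΦ ψ (Pool.Agent.K4H54.CZ2.zinv_any Pool.Agent.Q11.CZ.conj_comm
      Pool.Agent.Q11.CZ.conj_mul_self (isHalf hΦ) hDT
      (Pool.Agent.K4H54.CZ2.oi_kx Pool.Agent.Q11.CZ.conj_comm ψ (isHalf hΦ)) ?_ ?_ ?_)
    · intro h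
      rw [hΦn] at h ⊢
      rcases hcase with h1 | h1
      · omega
      · exact natSquare hn0 h1.2.2
    · rw [hΦn]; rcases hcase with h1 | h1 <;> omega
    · rw [hΦn]; rcases hcase with h1 | h1 <;> omega

end Pool.Agent.Results.MP_a2beea_nt.DoublyTransitive
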