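import Pool.Agent.Results.MP_a2beea_nt.AveragedAndAbelian
import Pool.Agent.K4H54.CZ2.Fd2
import Pool.Agent.K4H54.CZ2.Ind

/-!
# Colmez's functions of CM fields with independent conjugates

`K` is a CM field, Galois over `ℚ`, and `E` is a CM field with maximal real subfield `F`.  If the
conjugates of `E` are independent over those of `F`, in the sense of the definition below, then all
functions `a⁰_{E,ψ,Φ}` with `ψ ∈ Φ` are equal, so that the averaged Colmez formula for the field `E`
implies Colmez's formula for each CM type of `E`.  The condition holds if `F` has no subfields besides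
`ℚ` and `F`, unless the Galois closure of `E` is a quadratic extension of the Galois closure of `F`.
-/

set_option autoImplicit false

open NumberField

namespace Pool.Agent.Results.MP_a2beea_nt.IndependentConjugates

open Pool.Agent.Results.MP_a2beea_nt.AveragedAndAbelian

/-- For all embeddings `ψ`, `ψ'` of `E` into `K` with `ψ' ≠ ψ`, `c ψ` some `g ∈ Gal(K/ℚ)` satisfies
`g ψ = ψ` and `g ψ' = c ψ'`. -/
def Independent (E K : Type) [Field E] [NumberField E] [Field K] [NumberField K] [IsCMField K] :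
    Prop :=
  ∀ ψ ψ' : E →ₐ[ℚ] K, ψ' ≠ ψ → ψ' ≠ act (conjugation K) ψ →
    ∃ g : K ≃ₐ[ℚ] K, act g ψ = ψ ∧ act g ψ' = act (conjugation K) ψ'

/-- Some `v ∈ Gal(K/ℚ)` which fixes all embeddings of the maximal real subfield of `E` acts on the
embeddings of `E` neither as the identity nor as complex conjugation: the Galois closure of `E` is
neither equal to that of `F` nor quadratic over it. -/
def LargeClosure (E K : Type) [Field E] [NumberField E] [IsCMField E]
    [Field K] [NumberField K] [IsCMField K] : Prop :=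
  ∃ v : K ≃ₐ[ℚ] K, (∀ σ : maximalRealSubfield E →ₐ[ℚ] K, (v : K →ₐ[ℚ] K).comp σ = σ) ∧
    (∃ ψ : E →ₐ[ℚ] K, act v ψ ≠ ψ) ∧ ∃ ψ : E →ₐ[ℚ] K, act v ψ ≠ act (conjugation K) ψ

/-- **Main result.**  Let `K` be a CM field, Galois over `ℚ`, and `E` a CM field with maximal real
subfield `F`.
(1) If the conjugates of `E` are independent, then the functions `a⁰_{E,ψ,Φ}` are in `avgSpan K` and
those with `ψ ∈ Φ` are all equal; in particular `A_Φ` is the same function for all CM types `Φ` of `E`.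
(2) The conjugates of `E` are independent if `F` has no subfields besides `ℚ` and `F` and the Galois
closure of `E` is not of degree at most two over that of `F`. -/
theorem result (K : Type) [Field K] [NumberField K] [IsGalois ℚ K] [IsCMField K]
    (E : Type) [Field E] [NumberField E] [IsCMField E] :
    (Independent E K → ∀ Φ : Finset (E →ₐ[ℚ] K), IsCMType Φ → ∀ ψ : E →ₐ[ℚ] K,
      a0 ψ Φ ∈ avgSpan K ∧
      (ψ ∈ Φ → ∀ Φ' : Finset (E →ₐ[ℚ] K), IsCMType Φ' → ∀ ψ' ∈ Φ', a0 ψ' Φ' = a0 ψ Φ)) ∧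
    ((∀ L : IntermediateField ℚ (maximalRealSubfield E), L = ⊥ ∨ L = ⊤) → LargeClosure E K →
      Independent E K) := by
  classical
  constructor
  · intro hI Φ hΦ ψ
    have hind : ∀ x y : E →ₐ[ℚ] K, y ≠ x → y ≠ Pool.Agent.Q11.CZ.conj K • x →
        ∃ g : K ≃ₐ[ℚ] K, g • x = x ∧ g • y = Pool.Agent.Q11.CZ.conj K • y := hI
    constructor
    · rw [avgSpan_eq, Pool.Agent.Q11.CZ.mem_avgSpan_iff, a0_eq]
      refine ⟨Pool.Agent.Q11.CZ.a0_isClass ψ Φ, ⟨1,
        fun g => Pool.Agent.Q11.CZ.a0_add Pool.Agent.Q11.CZ.conj_comm ψ (isHalf hΦ) g⟩,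
        Pool.Agent.K4H54.CZ2.zinv_a0 ?_⟩
      exact Pool.Agent.K4H54.CZ2.zinv_indep Pool.Agent.Q11.CZ.conj_comm
        Pool.Agent.Q11.CZ.conj_mul_self (Pool.Agent.K4H54.CZ2.half_free (isHalf hΦ)) hind
        (Pool.Agent.K4H54.CZ2.oi_kx Pool.Agent.Q11.CZ.conj_comm ψ (isHalf hΦ))
    · intro hψ Φ' hΦ' ψ' hψ'
      rw [a0_eq, a0_eq]
      exact Pool.Agent.K4H54.CZ2.a0_indep Pool.Agent.Q11.CZ.conj_comm
        Pool.Agent.Q11.CZ.conj_mul_self hind (isHalf hΦ) (isHalf hΦ') hψ hψ'
  · rintro hL ⟨v, hv, h1, h2⟩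
    exact Pool.Agent.K4H54.CZ2.indep_of_prim hL v hv h1 h2

end Pool.Agent.Results.MP_a2beea_nt.IndependentConjugates
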