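import Pool.Agent.Results.MP_a2beea_nt.AveragedAndAbelian
import Pool.Agent.K4H54.CZ2.Fd3

/-!
# Colmez's functions of CM fields `E = F k` with real subfield `F` of rank three

`K` is a CM field, Galois over `ℚ`, and `E` is a CM field which contains an imaginary quadratic field,
with maximal real subfield `F` of degree `n`.  We assume that `Gal(K/ℚ)` has at most two orbits on the
ordered pairs of different embeddings of `F` (rank at most three), and show that Colmez's functions of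
all CM types of `E` are in the span of the averaged functions, if the orbits have different sizes or if
`n` is a square.  The exception, two symmetric orbits of the same size and `n` not a square, occurs: for
`n = 5` and the dihedral group of order `10` the graph of an orbit is the pentagon, with eigenvalues
`(-1 ± √5)/2`.
-/

set_option autoImplicit false

open NumberField

namespace Pool.Agent.Results.MP_a2beea_nt.RankThreeUnitary

open Pool.Agent.Results.MP_a2beea_nt.AveragedAndAbelian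

/-- `E` contains the square root of a negative rational number, that is, an imaginary quadratic
field. -/
def HasImaginaryQuadratic (E : Type) [Field E] [NumberField E] : Prop :=
  ∃ (δ : E) (q : ℚ), q < 0 ∧ δ ^ 2 = algebraMap ℚ E q

/-- The ordered pairs of different embeddings into `K` of the maximal real subfield `F` of `E` fall
into at most two orbits under `Gal(K/ℚ)`: those with `R σ τ` and the others. -/
structure TwoClasses (E K : Type) [Field E] [NumberField E] [IsCMField E] [Field K] [NumberField K]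
    (R : (maximalRealSubfield E →ₐ[ℚ] K) → (maximalRealSubfield E →ₐ[ℚ] K) → Prop) : Prop where
  ne : ∀ σ τ, R σ τ → σ ≠ τ
  inv : ∀ (g : K ≃ₐ[ℚ] K) (σ τ : maximalRealSubfield E →ₐ[ℚ] K),
    R ((g : K →ₐ[ℚ] K).comp σ) ((g : K →ₐ[ℚ] K).comp τ) ↔ R σ τ
  first : ∀ σ τ σ' τ', R σ τ → R σ' τ' →
    ∃ g : K ≃ₐ[ℚ] K, (g : K →ₐ[ℚ] K).comp σ = σ' ∧ (g : K →ₐ[ℚ] K).comp τ = τ'
  second : ∀ σ τ σ' τ', σ ≠ τ → ¬ R σ τ → σ' ≠ τ' → ¬ R σ' τ' →
    ∃ g : K ≃ₐ[ℚ] K, (g : K →ₐ[ℚ] K).comp σ = σ' ∧ (g : K →ₐ[ℚ] K).comp τ = τ'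

open scoped Classical in
lemma mem_a0 {K : Type} [Field K] [NumberField K] [IsGalois ℚ K] [IsCMField K]
    {E : Type} [Field E] [NumberField E] {Φ : Finset (E →ₐ[ℚ] K)} (hΦ : IsCMType Φ)
    (ψ : E →ₐ[ℚ] K) (h : Pool.Agent.Q11.CZ.ZInv fun g : K ≃ₐ[ℚ] K =>
      (Pool.Agent.K4H54.CZ2.D (Pool.Agent.K4H54.CZ2.kx (K ≃ₐ[ℚ] K) ψ Φ) g : ℚ)) :
    a0 ψ Φ ∈ avgSpan K := by
  rw [avgSpan_eq, Pool.Agent.Q11.CZ.mem_avgSpan_iff, a0_eq]
  exact ⟨Pool.Agent.Q11.CZ.a0_isClass ψ Φ, ⟨1,
    fun g => Pool.Agent.Q11.CZ.a0_add Pool.Agent.Q11.CZ.conj_comm ψ (isHalf hΦ) g⟩,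
    Pool.Agent.K4H54.CZ2.zinv_a0 h⟩

/-- **Main result.**  Let `K` be a CM field, Galois over `ℚ`, and `E` a CM field with maximal real
subfield `F`, of degree `n`, which contains an imaginary quadratic field.  Assume that the ordered
pairs of different embeddings of `F` into `K` fall into at most two orbits under `Gal(K/ℚ)`, given by a
relation `R` and its complement.
(1) If the two orbits have different sizes, or if `R` is symmetric and `n` is a square, then all
functions `a⁰_{E,ψ,Φ}` are in `avgSpan K`.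
(2) If `R` is not symmetric, then `A_Φ` is in `avgSpan K` for all CM types `Φ` of `E`. -/
theorem result (K : Type) [Field K] [NumberField K] [IsGalois ℚ K] [IsCMField K]
    (E : Type) [Field E] [NumberField E] [IsCMField E] (hE : HasImaginaryQuadratic E) (n : ℕ)
    (hn : n = Module.finrank ℚ (maximalRealSubfield E))
    (R : (maximalRealSubfield E →ₐ[ℚ] K) → (maximalRealSubfield E →ₐ[ℚ] K) → Prop)
    (hR : TwoClasses E K R) :
    ((Nat.card {p : (maximalRealSubfield E →ₐ[ℚ] K) × (maximalRealSubfield E →ₐ[ℚ] K) //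
          R p.1 p.2} ≠
        Nat.card {p : (maximalRealSubfield E →ₐ[ℚ] K) × (maximalRealSubfield E →ₐ[ℚ] K) //
          p.1 ≠ p.2 ∧ ¬ R p.1 p.2} ∨ ((∀ σ τ, R σ τ → R τ σ) ∧ IsSquare n)) →
      ∀ Φ : Finset (E →ₐ[ℚ] K), IsCMType Φ → ∀ ψ : E →ₐ[ℚ] K, a0 ψ Φ ∈ avgSpan K) ∧
    ((¬ ∀ σ τ, R σ τ → R τ σ) →
      ∀ Φ : Finset (E →ₐ[ℚ] K), IsCMType Φ → heightFn Φ ∈ avgSpan K) := by
  classical
  obtain ⟨δ, q, hq, hδ⟩ := hE
  -- if `R` is not symmetric, its inverse is the complement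
  have hT : (¬ ∀ σ τ, R σ τ → R τ σ) → ∀ σ τ, σ ≠ τ → (R τ σ ↔ ¬ R σ τ) := by
    intro h
    push Not at h
    obtain ⟨σ0, τ0, h1, h2⟩ := h
    intro σ τ hne
    constructor
    · intro h3 h4
      obtain ⟨g, h5, h6⟩ := hR.first σ τ σ0 τ0 h4 h1
      apply h2
      rw [← h5, ← h6]
      exact (hR.inv g τ σ).mpr h3
    · intro h3
      obtain ⟨g, h5, h6⟩ := hR.second τ0 σ0 σ τ (hR.ne _ _ h1).symm h2 hne h3
      rw [← h5, ← h6]
      exact (hR.inv g σ0 τ0).mpr h1
  constructor
  · intro hcase Φ hΦ ψ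
    have hhalf := isHalf hΦ
    have hfree := Pool.Agent.K4H54.CZ2.half_free hhalf
    obtain ⟨S, s1, s2, s3⟩ := Pool.Agent.K4H54.CZ2.split_sign hq hδ ψ
    have hRT : Pool.Agent.K4H54.CZ2.RT (Pool.Agent.Q11.CZ.conj K) S
        (Pool.Agent.K4H54.CZ2.lft R) :=
      Pool.Agent.K4H54.CZ2.rt_of_field hR.inv hR.ne hR.first hR.second s1 s2 s3
    -- `R` is symmetric
    have hsym : ∀ σ τ, R σ τ → R τ σ := by
      rcases hcase with h | h
      · by_contra hns
        have hT' := hT hns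
        apply h
        refine Nat.card_congr
          { toFun := fun p => ⟨(p.1.2, p.1.1), ?_⟩
            invFun := fun p => ⟨(p.1.2, p.1.1), ?_⟩
            left_inv := fun p => rfl
            right_inv := fun p => rfl }
        · have h1 := hR.ne _ _ p.2
          exact ⟨h1.symm, (hT' _ _ h1.symm).mp p.2⟩
        · exact (hT' _ _ p.2.1).mpr p.2.2
      · exact h.1
    have hs : ∀ x y, Pool.Agent.K4H54.CZ2.lft R y x = Pool.Agent.K4H54.CZ2.lft R x y := by
      intro x y
      unfold Pool.Agent.K4H54.CZ2.lft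
      have : R (Pool.Agent.K4H54.CZ2.res y) (Pool.Agent.K4H54.CZ2.res x) ↔
          R (Pool.Agent.K4H54.CZ2.res x) (Pool.Agent.K4H54.CZ2.res y) :=
        ⟨hsym _ _, hsym _ _⟩
      simp only [this]
    -- numbers of embeddings
    have hX : (Fintype.card (E →ₐ[ℚ] K) : ℤ) = 2 * n := by
      rw [Pool.Agent.K4H54.CZ2.half_card Pool.Agent.Q11.CZ.conj_mul_self hhalf, hn,
        Pool.Agent.K4H54.CZ2.card_half_field hhalf ψ]
    have hY : (Fintype.card (maximalRealSubfield E →ₐ[ℚ] K) : ℤ) = n := by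
      have h1 := Pool.Agent.K4H54.CZ2.sum_res hfree ψ (fun _ => 1)
      simp only [Finset.sum_const, Finset.card_univ, nsmul_eq_mul, mul_one] at h1
      rw [hX] at h1
      linarith
    have hrow : ∀ x, ∑ y, Pool.Agent.K4H54.CZ2.lft R x y =
        2 * ∑ τ, (if R (Pool.Agent.K4H54.CZ2.res x) τ then (1 : ℤ) else 0) :=
      fun x => Pool.Agent.K4H54.CZ2.sum_res hfree ψ
        (fun τ => if R (Pool.Agent.K4H54.CZ2.res x) τ then (1 : ℤ) else 0)
    refine mem_a0 hΦ ψ (Pool.Agent.K4H54.CZ2.zinv_rt hRT Pool.Agent.Q11.CZ.conj_comm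
      Pool.Agent.Q11.CZ.conj_mul_self hhalf hs ?_
      (Pool.Agent.K4H54.CZ2.oi_kx Pool.Agent.Q11.CZ.conj_comm ψ hhalf))
    rcases hcase with h | h
    · left
      intro x hx
      apply h
      set σ1 := Pool.Agent.K4H54.CZ2.res x with hσ1
      rw [hrow x, hX] at hx
      -- valencies
      have hval : ∀ σ, ∑ τ, (if R σ τ then (1 : ℤ) else 0) =
          ∑ τ, (if R σ1 τ then (1 : ℤ) else 0) := by
        intro σ
        obtain ⟨g, hg⟩ := Pool.Agent.Q11.CZ.exists_lift σ1 σ
        rw [← hg, ← Equiv.sum_comp (MulAction.toPerm g)]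
        refine Finset.sum_congr rfl fun τ _ => ?_
        have : R (g • σ1) (g • τ) ↔ R σ1 τ := hR.inv g σ1 τ
        simp only [MulAction.toPerm_apply, this]
      obtain ⟨P2, hP2⟩ : ∃ P2 : (maximalRealSubfield E →ₐ[ℚ] K) →
          (maximalRealSubfield E →ₐ[ℚ] K) → Prop, ∀ σ τ, P2 σ τ ↔ (σ ≠ τ ∧ ¬ R σ τ) :=
        ⟨fun σ τ => σ ≠ τ ∧ ¬ R σ τ, fun σ τ => Iff.rfl⟩
      have hval' : ∀ σ, ∑ τ, (if P2 σ τ then (1 : ℤ) else 0) =
          n - 1 - ∑ τ, (if R σ1 τ then (1 : ℤ) else 0) := by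
        intro σ
        have h1 : ∀ τ ∈ (Finset.univ : Finset (maximalRealSubfield E →ₐ[ℚ] K)),
            (if P2 σ τ then (1 : ℤ) else 0) =
              1 - (if τ = σ then 1 else 0) - (if R σ τ then 1 else 0) := by
          intro τ _
          have h0 := hP2 σ τ
          by_cases h2 : τ = σ
          · subst h2
            have : ¬ R τ τ := fun h => hR.ne _ _ h rfl
            simp [this, h0]
          · by_cases h3 : R σ τ
            · simp [h2, h3, h0]
            · have h4 : σ ≠ τ := Ne.symm h2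
              simp [h2, h3, h4, h0]
        rw [Finset.sum_congr rfl h1, Finset.sum_sub_distrib, Finset.sum_sub_distrib, hval σ,
          Finset.sum_ite_eq', if_pos (Finset.mem_univ _), Finset.sum_const, Finset.card_univ,
          nsmul_eq_mul, mul_one, hY]
      have hcard : ∀ P : (maximalRealSubfield E →ₐ[ℚ] K) → (maximalRealSubfield E →ₐ[ℚ] K) → Prop,
          ((Nat.card {p : (maximalRealSubfield E →ₐ[ℚ] K) × (maximalRealSubfield E →ₐ[ℚ] K) //
            P p.1 p.2} : ℕ) : ℤ) = ∑ σ, ∑ τ, (if P σ τ then (1 : ℤ) else 0) := by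
        intro P
        rw [Nat.card_eq_fintype_card, Fintype.card_subtype, Finset.card_filter]
        push_cast
        rw [← Finset.univ_product_univ, Finset.sum_product]
      have e1 := hcard R
      have e2 := hcard P2
      rw [Finset.sum_congr rfl (fun σ _ => hval σ), Finset.sum_const, Finset.card_univ,
        nsmul_eq_mul, hY] at e1
      rw [Finset.sum_congr rfl (fun σ _ => hval' σ), Finset.sum_const, Finset.card_univ,
        nsmul_eq_mul, hY] at e2
      have e3 : (n : ℤ) * ∑ τ, (if R σ1 τ then (1 : ℤ) else 0) =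
          n * (n - 1 - ∑ τ, (if R σ1 τ then (1 : ℤ) else 0)) := by
        congr 1
        linarith
      have e4 := e1.trans (e3.trans e2.symm)
      have e5 : Nat.card {p : (maximalRealSubfield E →ₐ[ℚ] K) ×
          (maximalRealSubfield E →ₐ[ℚ] K) // P2 p.1 p.2} =
          Nat.card {p : (maximalRealSubfield E →ₐ[ℚ] K) × (maximalRealSubfield E →ₐ[ℚ] K) //
            p.1 ≠ p.2 ∧ ¬ R p.1 p.2} :=
        Nat.card_congr (Equiv.subtypeEquivRight fun p => hP2 p.1 p.2)
      rw [← e5]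
      exact_mod_cast e4
    · right
      obtain ⟨r, hr⟩ := h.2
      refine ⟨(r : ℤ), ?_⟩
      rw [hX, hr]
      push_cast
      ring
  · intro hns Φ hΦ
    by_cases hne : Nonempty (E →ₐ[ℚ] K)
    · obtain ⟨ψ⟩ := hne
      have hhalf := isHalf hΦ
      obtain ⟨S, s1, s2, s3⟩ := Pool.Agent.K4H54.CZ2.split_sign hq hδ ψ
      have hRT : Pool.Agent.K4H54.CZ2.RT (Pool.Agent.Q11.CZ.conj K) S
          (Pool.Agent.K4H54.CZ2.lft R) :=
        Pool.Agent.K4H54.CZ2.rt_of_field hR.inv hR.ne hR.first hR.second s1 s2 s3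
      rw [avgSpan_eq, Pool.Agent.Q11.CZ.mem_avgSpan_iff, heightFn_eq]
      refine ⟨Pool.Agent.Q11.CZ.T_isClass Φ, ⟨Φ.card,
        fun g => Pool.Agent.Q11.CZ.T_add Pool.Agent.Q11.CZ.conj_comm hhalf g⟩,
        Pool.Agent.K4H54.CZ2.zinv_T ?_⟩
      refine Pool.Agent.K4H54.CZ2.zinv_tour hRT Pool.Agent.Q11.CZ.conj_comm
        Pool.Agent.Q11.CZ.conj_mul_self hhalf ?_
        (Pool.Agent.K4H54.CZ2.oi_kT Pool.Agent.Q11.CZ.conj_comm hhalf)
        (Pool.Agent.K4H54.CZ2.kT_symm Pool.Agent.Q11.CZ.conj_comm hhalf)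
      intro x y h1 h2
      have h3 : Pool.Agent.K4H54.CZ2.res x ≠ Pool.Agent.K4H54.CZ2.res y := by
        intro h
        rcases (Pool.Agent.K4H54.CZ2.res_eq_iff x y).mp h with h | h
        · exact h1 h
        · exact h2 h
      have h4 := hT hns _ _ h3
      unfold Pool.Agent.K4H54.CZ2.lft
      by_cases h5 : R (Pool.Agent.K4H54.CZ2.res x) (Pool.Agent.K4H54.CZ2.res y)
      · rw [if_pos h5, if_neg (fun h6 => h4.mp h6 h5)]; norm_num
      · rw [if_neg h5, if_pos (h4.mpr h5)]; norm_num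
    · have h0 : heightFn Φ = 0 := by
        funext g
        unfold heightFn
        exact Finset.sum_eq_zero fun ψ _ => absurd ⟨ψ⟩ hne
      rw [h0]
      exact Submodule.zero_mem _

end Pool.Agent.Results.MP_a2beea_nt.RankThreeUnitary
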